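import Pool.Agent.H36.Sim

namespace Pool.Agent.Results.MP_0b8c1e_lc.NoPTAS

open Pool.Agent.H38.NP Pool.Agent.H36 Finset

/-- a graph: number of vertices and edge list -/
abbrev Gr := ℕ × List (ℕ × ℕ)

def Adj (G : Gr) (u v : ℕ) : Prop := u ≠ v ∧ ((u, v) ∈ G.2 ∨ (v, u) ∈ G.2)

instance (G : Gr) (u v : ℕ) : Decidable (Adj G u v) := by unfold Adj; infer_instance

/-- the part with label `i` of the partition given by the label list `c` -/
def part (N : ℕ) (c : List ℕ) (i : ℕ) : Finset ℕ := {v ∈ range N | c.getD v 0 = i}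

/-- number of ordered adjacent pairs inside `P`, i.e. twice the number of edges inside `P` -/
def pairs (G : Gr) (P : Finset ℕ) : ℕ := #{p ∈ P ×ˢ P | Adj G p.1 p.2}

/-- density of the partition -/
noncomputable def dens (G : Gr) (c : List ℕ) : ℝ :=
  ∑ i ∈ (range G.1).image (fun v => c.getD v 0),
    ((pairs G (part G.1 c i) : ℝ) / 2) / #(part G.1 c i)

def PTAS : Prop :=
  ∀ ε : ℝ, 0 < ε → ∃ f, PolyTime f ∧ ∀ G : Gr, ∃ c : List ℕ, f (enc G) = enc c ∧
    ∀ c', (1 - ε) * dens G c' ≤ dens G c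

/-- 3-set systems: universe size and list of triples -/
abbrev Sys := ℕ × List (ℕ × ℕ × ℕ)

def el (J : Sys) (t s : ℕ) : ℕ :=
  if s = 0 then (J.2.getD t (0, 0, 0)).1 else if s = 1 then (J.2.getD t (0, 0, 0)).2.1
  else (J.2.getD t (0, 0, 0)).2.2

def Valid (B : ℕ) (J : Sys) : Prop :=
  (∀ t < J.2.length, ∀ s < 3, el J t s < J.1 ∧ ∀ s' < 3, el J t s = el J t s' → s = s') ∧
    J.2.length ≤ B * J.1

/-- indices of pairwise disjoint triples -/
def Pack (J : Sys) (M : List ℕ) : Prop :=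
  M.Nodup ∧ (∀ t ∈ M, t < J.2.length) ∧
    ∀ t ∈ M, ∀ t' ∈ M, ∀ s < 3, ∀ s' < 3, el J t s = el J t' s' → t = t'

def Perfect (J : Sys) : Prop := ∃ M, Pack J M ∧ ∀ x < J.1, ∃ t ∈ M, ∃ s < 3, el J t s = x

def NearPerfect (B : ℕ) (ε : ℝ) : Prop :=
  ∃ g, PolyTime g ∧ ∀ J : Sys, Valid B J → Perfect J → ∃ M : List ℕ, g (enc J) = enc M ∧
    Pack J M ∧ (1 - ε) * J.1 ≤ 3 * M.length

def Tri (G : Gr) (P : Finset ℕ) : Prop := #P = 3 ∧ ∀ u ∈ P, ∀ v ∈ P, u ≠ v → Adj G u v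

theorem symm {G : Gr} {u v : ℕ} (h : Adj G u v) : Adj G v u := ⟨h.1.symm, h.2.symm⟩

theorem pairs_eq (G : Gr) (P : Finset ℕ) : pairs G P = ∑ u ∈ P, #{v ∈ P | Adj G u v} := by
  unfold pairs
  rw [card_filter, sum_product]
  simp only [card_filter]

theorem sub_off (G : Gr) (P : Finset ℕ) : {p ∈ P ×ˢ P | Adj G p.1 p.2} ⊆ P.offDiag := fun p hp => by
  simp only [mem_filter, mem_product, mem_offDiag] at hp ⊢
  exact ⟨hp.1.1, hp.1.2, hp.2.1⟩

theorem part_le (G : Gr) (hG : ∀ u v w w', Adj G u v → Adj G u w → Adj G v w → Adj G u w' →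
    Adj G v w' → w = w') (P : Finset ℕ) (h : ¬ Tri G P) : 8 * pairs G P ≤ 5 * #P ^ 2 := by
  have h0 := card_le_card (sub_off G P)
  rw [offDiag_card] at h0
  change pairs G P ≤ _ at h0
  by_cases h4 : 4 ≤ #P
  · have h1 : ∀ u ∈ P, ∀ v ∈ P, Adj G u v →
        #{w ∈ P | Adj G u w} + #{w ∈ P | Adj G v w} ≤ #P + 1 := fun u _ v _ h => by
      rw [← card_union_add_card_inter]
      refine Nat.add_le_add (card_le_card (union_subset (filter_subset _ _) (filter_subset _ _)))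
        (card_le_one.2 fun a ha b hb => ?_)
      simp only [mem_inter, mem_filter] at ha hb
      exact hG u v a b h ha.1.2 ha.2.2 hb.1.2 hb.2.2
    have h2 : ∑ u ∈ P, ∑ v ∈ P, (if Adj G u v then
        #{w ∈ P | Adj G u w} + #{w ∈ P | Adj G v w} else 0) ≤
        ∑ u ∈ P, ∑ v ∈ P, (if Adj G u v then #P + 1 else 0) :=
      sum_le_sum fun u hu => sum_le_sum fun v hv => by
        split_ifs with h
        · exact h1 u hu v hv h
        · rfl
    have h3 : ∀ (k : ℕ → ℕ), ∑ u ∈ P, ∑ v ∈ P, (if Adj G u v then k u else 0) =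
        ∑ u ∈ P, #{w ∈ P | Adj G u w} * k u := fun k =>
      sum_congr rfl fun u _ => by rw [← sum_filter, sum_const, smul_eq_mul]
    have h5 : ∑ u ∈ P, ∑ v ∈ P, (if Adj G u v then #{w ∈ P | Adj G v w} else 0) =
        ∑ u ∈ P, ∑ v ∈ P, (if Adj G u v then #{w ∈ P | Adj G u w} else 0) := by
      rw [sum_comm]
      exact sum_congr rfl fun u _ => sum_congr rfl fun v _ => if_congr ⟨symm, symm⟩ rfl rfl
    simp only [ite_add_zero, sum_add_distrib] at h2
    rw [h5, h3, h3 (fun _ => #P), h3 (fun _ => 1), ← sum_mul, ← sum_mul, ← pairs_eq] at h2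
    have h6 := sq_sum_le_card_mul_sum_sq (s := P) (f := fun u => #{w ∈ P | Adj G u w})
    rw [← pairs_eq] at h6
    simp only [sq] at h6
    rcases Nat.eq_zero_or_pos (pairs G P) with h7 | h7
    · omega
    have h8 : pairs G P * (2 * pairs G P) ≤ pairs G P * (#P * (#P + 1)) := by nlinarith
    have := Nat.le_of_mul_le_mul_left h8 h7
    nlinarith
  · by_cases h3 : #P = 3
    · have : pairs G P < #P.offDiag := card_lt_card ⟨sub_off G P, fun hs => h ⟨h3, fun u hu v hv huv =>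
        (mem_filter.1 (hs (show (u, v) ∈ _ from mem_offDiag.2 ⟨hu, hv, huv⟩))).2⟩⟩
      rw [offDiag_card, h3] at this
      rw [h3]; omega
    · have : #P = 0 ∨ #P = 1 ∨ #P = 2 := by omega
      rcases this with h | h | h <;> rw [h] at h0 ⊢ <;> omega

theorem fib (N : ℕ) (c : List ℕ) (φ : ℕ → ℝ) :
    ∑ i ∈ (range N).image (fun v => c.getD v 0), (#(part N c i) : ℝ) * φ i =
      ∑ v ∈ range N, φ (c.getD v 0) := by
  rw [sum_comp φ]
  simp [part]

open Classical in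
theorem dens_le (G : Gr) (hG : ∀ u v w w', Adj G u v → Adj G u w → Adj G v w → Adj G u w' →
    Adj G v w' → w = w') (c : List ℕ) : dens G c ≤ G.1 / 3 -
      (#{v ∈ range G.1 | ¬ Tri G (part G.1 c (c.getD v 0))} : ℝ) / 48 := by
  have e : (G.1 : ℝ) / 3 - (#{v ∈ range G.1 | ¬ Tri G (part G.1 c (c.getD v 0))} : ℝ) / 48 =
      ∑ v ∈ range G.1, (fun i => 1 / 3 - (if ¬ Tri G (part G.1 c i) then 1 else 0) / 48)
        (c.getD v 0) := by
    simp only [sum_sub_distrib, ← sum_div, card_filter]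
    simp
  rw [e, ← fib G.1 c fun i => 1 / 3 - (if ¬ Tri G (part G.1 c i) then 1 else 0) / 48]
  refine sum_le_sum fun i _ => ?_
  refine div_le_of_le_mul₀ (Nat.cast_nonneg _) (by split_ifs <;> positivity) ?_
  by_cases h : Tri G (part G.1 c i)
  · have h0 := card_le_card (sub_off G (part G.1 c i))
    rw [offDiag_card, h.1] at h0
    have : (pairs G (part G.1 c i) : ℝ) ≤ 6 := by exact_mod_cast h0
    rw [if_neg (not_not.2 h), h.1]
    push_cast
    linarith
  · have : (8 * pairs G (part G.1 c i) : ℝ) ≤ 5 * (#(part G.1 c i) : ℝ) ^ 2 := by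
      exact_mod_cast part_le G hG _ h
    rw [if_pos h]
    nlinarith

theorem dens_ge (G : Gr) (c : List ℕ) (h : ∀ v < G.1, Tri G (part G.1 c (c.getD v 0))) :
    (G.1 : ℝ) / 3 ≤ dens G c := by
  have e : (G.1 : ℝ) / 3 = ∑ v ∈ range G.1, (fun _ => (1 / 3 : ℝ)) (c.getD v 0) := by
    simp; ring
  rw [e, ← fib G.1 c fun _ => 1 / 3]
  refine sum_le_sum fun i hi => ?_
  obtain ⟨v, hv, rfl⟩ := mem_image.1 hi
  have ht := h v (mem_range.1 hv)
  have h0 : #(part G.1 c (c.getD v 0)).offDiag ≤ pairs G (part G.1 c (c.getD v 0)) :=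
    card_le_card fun p hp => by
      rw [mem_offDiag] at hp
      exact mem_filter.2 ⟨mem_product.2 ⟨hp.1, hp.2.1⟩, ht.2 _ hp.1 _ hp.2.1 hp.2.2⟩
  rw [offDiag_card, ht.1] at h0
  have : (6 : ℝ) ≤ pairs G (part G.1 c (c.getD v 0)) := by exact_mod_cast h0
  rw [ht.1]
  push_cast
  linarith

def ad (J : Sys) (u v : ℕ) : Prop :=
  J.1 ≤ v ∧ ((u < J.1 ∧ u = el J ((v - J.1) / 6) ((v - J.1) % 6 / 2)) ∨
    (J.1 ≤ u ∧ (u - J.1) / 6 = (v - J.1) / 6 ∧
      ((u - J.1) % 6 / 2 = (v - J.1) % 6 / 2 ∨ (u - J.1) % 2 = (v - J.1) % 2)))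

instance (J : Sys) (u v : ℕ) : Decidable (ad J u v) := by unfold ad; infer_instance

def red (J : Sys) : Gr :=
  (J.1 + 6 * J.2.length, ((List.range (J.1 + 6 * J.2.length)).product
    (List.range (J.1 + 6 * J.2.length))).filter fun p => decide (ad J p.1 p.2))

theorem adj_iff {J : Sys} {u v : ℕ} : Adj (red J) u v ↔ u ≠ v ∧ u < J.1 + 6 * J.2.length ∧
    v < J.1 + 6 * J.2.length ∧ (ad J u v ∨ ad J v u) := by
  unfold Adj red
  simp only [List.mem_filter, List.pair_mem_product, List.mem_range, decide_eq_true_eq]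
  tauto

theorem coord {n v : ℕ} (h : ¬ v < n) : ∃ t s r, s < 3 ∧ r < 2 ∧ v = n + 6 * t + 2 * s + r :=
  ⟨(v - n) / 6, (v - n) % 6 / 2, (v - n) % 2, by omega, by omega, by omega⟩

theorem cd (n t : ℕ) {s r : ℕ} (hs : s < 3) (hr : r < 2) :
    (n + 6 * t + 2 * s + r - n) / 6 = t ∧ (n + 6 * t + 2 * s + r - n) % 6 / 2 = s ∧
      (n + 6 * t + 2 * s + r - n) % 2 = r := by omega

theorem adjEE {J : Sys} {x y : ℕ} (hx : x < J.1) (hy : y < J.1) : ¬ Adj (red J) x y := by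
  rw [adj_iff]
  rintro ⟨-, -, -, h | h⟩ <;> have := h.1 <;> omega

theorem adjEG {J : Sys} {x t s r : ℕ} (hx : x < J.1) (hs : s < 3) (hr : r < 2) :
    Adj (red J) x (J.1 + 6 * t + 2 * s + r) ↔ t < J.2.length ∧ x = el J t s := by
  rw [adj_iff]
  unfold ad
  rw [(cd J.1 t hs hr).1, (cd J.1 t hs hr).2.1]
  constructor
  · rintro ⟨-, -, h, ⟨-, h1 | h1⟩ | ⟨h1, -⟩⟩
    · exact ⟨by omega, h1.2⟩
    · have := h1.1; omega
    · omega
  · rintro ⟨h1, h2⟩
    exact ⟨by omega, by omega, by omega, Or.inl ⟨by omega, Or.inl ⟨hx, h2⟩⟩⟩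

theorem adjGG {J : Sys} {t s r t' s' r' : ℕ} (hs : s < 3) (hr : r < 2) (hs' : s' < 3)
    (hr' : r' < 2) : Adj (red J) (J.1 + 6 * t + 2 * s + r) (J.1 + 6 * t' + 2 * s' + r') ↔
      t < J.2.length ∧ t = t' ∧ ((s = s' ∧ r ≠ r') ∨ (s ≠ s' ∧ r = r')) := by
  rw [adj_iff]
  unfold ad
  rw [(cd J.1 t hs hr).1, (cd J.1 t hs hr).2.1, (cd J.1 t hs hr).2.2,
    (cd J.1 t' hs' hr').1, (cd J.1 t' hs' hr').2.1, (cd J.1 t' hs' hr').2.2]
  constructor
  · rintro ⟨h0, h, -, ⟨-, h1 | h1⟩ | ⟨-, h1 | h1⟩⟩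
    · have := h1.1; omega
    · omega
    · have := h1.1; omega
    · omega
  · rintro ⟨h1, h2, h3⟩
    exact ⟨by omega, by omega, by omega, Or.inl ⟨by omega, Or.inr ⟨by omega, h2, by omega⟩⟩⟩

theorem keyE {B : ℕ} {J : Sys} (hJ : Valid B J) {a b c : ℕ} (h1 : Adj (red J) a b)
    (h2 : Adj (red J) a c) (h3 : Adj (red J) b c) (ha : a < J.1) :
    ∃ t < J.2.length, ∃ s < 3, ∃ r < 2, a = el J t s ∧ b = J.1 + 6 * t + 2 * s + r ∧
      c = J.1 + 6 * t + 2 * s + (1 - r) := by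
  obtain ⟨t, s, r, hs, hr, eb⟩ := coord (fun hb => adjEE ha hb h1)
  obtain ⟨t', s', r', hs', hr', ec⟩ := coord (fun hb => adjEE ha hb h2)
  rw [eb, adjEG ha hs hr] at h1
  rw [ec, adjEG ha hs' hr'] at h2
  rw [eb, ec, adjGG hs hr hs' hr'] at h3
  have e4 := (hJ.1 t h1.1 s hs).2 s' hs' (by rw [← h1.2, h2.2, h3.2.1])
  exact ⟨t, h1.1, s, hs, r, hr, h1.2, eb, by omega⟩

theorem keyG {J : Sys} {a b c : ℕ} (h1 : Adj (red J) a b)
    (h2 : Adj (red J) a c) (h3 : Adj (red J) b c) (ha : ¬ a < J.1) (hb : ¬ b < J.1)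
    (hc : ¬ c < J.1) : ∃ t < J.2.length, ∃ r < 2, ∃ s < 3, ∃ s' < 3, s ≠ s' ∧
      a = J.1 + 6 * t + 2 * s + r ∧ b = J.1 + 6 * t + 2 * s' + r ∧
      c = J.1 + 6 * t + 2 * (3 - s - s') + r := by
  obtain ⟨t, s, r, hs, hr, ea⟩ := coord ha
  obtain ⟨t', s', r', hs', hr', eb⟩ := coord hb
  obtain ⟨t2, s2, r2, hs2, hr2, ec⟩ := coord hc
  rw [ea, eb, adjGG hs hr hs' hr'] at h1
  rw [ea, ec, adjGG hs hr hs2 hr2] at h2
  rw [eb, ec, adjGG hs' hr' hs2 hr2] at h3
  have k : r = r' ∧ r = r2 ∧ s ≠ s' ∧ s2 = 3 - s - s' := by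
    have := h1.2.2; have := h2.2.2; have := h3.2.2
    clear h1 h2 h3 ea eb ec ha hb hc
    omega
  refine ⟨t, h1.1, r, hr, s, hs, s', hs', k.2.2.1, ea, ?_, ?_⟩
  · rw [eb, ← h1.2.1, ← k.1]
  · rw [ec, ← h2.2.1, ← k.2.1, k.2.2.2]

/-- the two kinds of triangles -/
theorem tri_cases {B : ℕ} {J : Sys} (hJ : Valid B J) {u v w : ℕ} (h1 : Adj (red J) u v)
    (h2 : Adj (red J) u w) (h3 : Adj (red J) v w) : ∃ t < J.2.length,
      (∃ s < 3, ∀ x, x = u ∨ x = v ∨ x = w ↔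
        x = el J t s ∨ x = J.1 + 6 * t + 2 * s ∨ x = J.1 + 6 * t + 2 * s + 1) ∨
      (∃ r < 2, ∀ x, x = u ∨ x = v ∨ x = w ↔
        x = J.1 + 6 * t + r ∨ x = J.1 + 6 * t + 2 + r ∨ x = J.1 + 6 * t + 4 + r) := by
  by_cases hu : u < J.1
  · obtain ⟨t, ht, s, hs, r, hr, h⟩ := keyE hJ h1 h2 h3 hu
    exact ⟨t, ht, Or.inl ⟨s, hs, fun x => by omega⟩⟩
  by_cases hv : v < J.1
  · obtain ⟨t, ht, s, hs, r, hr, h⟩ := keyE hJ (symm h1) h3 h2 hv
    exact ⟨t, ht, Or.inl ⟨s, hs, fun x => by omega⟩⟩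
  by_cases hw : w < J.1
  · obtain ⟨t, ht, s, hs, r, hr, h⟩ := keyE hJ (symm h2) (symm h3) h1 hw
    exact ⟨t, ht, Or.inl ⟨s, hs, fun x => by omega⟩⟩
  obtain ⟨t, ht, r, hr, s, hs, s', hs', h⟩ := keyG h1 h2 h3 hu hv hw
  exact ⟨t, ht, Or.inr ⟨r, hr, fun x => by omega⟩⟩

theorem third {B : ℕ} {J : Sys} (hJ : Valid B J) {u v w : ℕ} (h1 : Adj (red J) u v)
    (h2 : Adj (red J) u w) (h3 : Adj (red J) v w) (hu : ¬ u < J.1) (hv : ¬ v < J.1) :
    w = if (u - J.1) % 6 / 2 = (v - J.1) % 6 / 2 then el J ((u - J.1) / 6) ((u - J.1) % 6 / 2)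
      else J.1 + 6 * ((u - J.1) / 6) + 2 * (3 - (u - J.1) % 6 / 2 - (v - J.1) % 6 / 2) +
        (u - J.1) % 2 := by
  by_cases hw : w < J.1
  · obtain ⟨t, ht, s, hs, r, hr, e1, e2, e3⟩ := keyE hJ (symm h2) (symm h3) h1 hw
    rw [e2, e3, (cd J.1 t hs hr).1, (cd J.1 t hs hr).2.1, (cd J.1 t hs (by omega)).2.1, if_pos rfl]
    exact e1
  · obtain ⟨t, ht, r, hr, s, hs, s', hs', h, e1, e2, e3⟩ := keyG h1 h2 h3 hu hv hw
    rw [e1, e2, (cd J.1 t hs hr).1, (cd J.1 t hs hr).2.1, (cd J.1 t hs hr).2.2,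
      (cd J.1 t hs' hr).2.1, if_neg h]
    exact e3

theorem diamond {B : ℕ} {J : Sys} (hJ : Valid B J) (u v w w' : ℕ) (h1 : Adj (red J) u v)
    (h2 : Adj (red J) u w) (h3 : Adj (red J) v w) (h4 : Adj (red J) u w')
    (h5 : Adj (red J) v w') : w = w' := by
  by_cases hu : u < J.1
  · obtain ⟨t, -, s, hs, r, hr, -, h⟩ := keyE hJ h1 h2 h3 hu
    obtain ⟨t', -, s', hs', r', hr', -, h'⟩ := keyE hJ h1 h4 h5 hu
    omega
  by_cases hv : v < J.1
  · obtain ⟨t, -, s, hs, r, hr, -, h⟩ := keyE hJ (symm h1) h3 h2 hv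
    obtain ⟨t', -, s', hs', r', hr', -, h'⟩ := keyE hJ (symm h1) h5 h4 hv
    omega
  exact (third hJ h1 h2 h3 hu hv).trans (third hJ h1 h4 h5 hu hv).symm

theorem tri_of {G : Gr} {a b c : ℕ} (h1 : Adj G a b) (h2 : Adj G a c) (h3 : Adj G b c) :
    Tri G {a, b, c} := by
  refine ⟨card_eq_three.2 ⟨_, _, _, h1.1, h2.1, h3.1, rfl⟩, fun u hu v hv huv => ?_⟩
  simp only [mem_insert, mem_singleton] at hu hv
  rcases hu with hu | hu | hu <;> rcases hv with hv | hv | hv <;> rw [hu, hv] at huv ⊢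
  exacts [absurd rfl huv, h1, h2, symm h1, absurd rfl huv, h3, symm h2, symm h3, absurd rfl huv]

def ok (J : Sys) (c : List ℕ) (t s : ℕ) : Prop :=
  c.getD (el J t s) 0 = c.getD (J.1 + 6 * t + 2 * s) 0 ∧
    c.getD (J.1 + 6 * t + 2 * s + 1) 0 = c.getD (J.1 + 6 * t + 2 * s) 0 ∧
    ((List.range (J.1 + 6 * J.2.length)).filter fun v =>
      decide (c.getD v 0 = c.getD (J.1 + 6 * t + 2 * s) 0)).length = 3

instance (J : Sys) (c : List ℕ) (t s : ℕ) : Decidable (ok J c t s) := by unfold ok; infer_instance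

def back (J : Sys) (c : List ℕ) : List ℕ :=
  (List.range J.2.length).filter fun t => decide (ok J c t 0 ∧ ok J c t 1 ∧ ok J c t 2)

theorem flen (K : ℕ) (p : ℕ → Prop) [DecidablePred p] :
    ((List.range K).filter fun t => decide (p t)).length = #{t ∈ range K | p t} := by
  rw [← List.toFinset_card_of_nodup (List.nodup_range.filter _)]
  congr 1
  ext; simp

theorem mem_back {J : Sys} {c : List ℕ} {t : ℕ} :
    t ∈ back J c ↔ t < J.2.length ∧ ∀ s < 3, ok J c t s := by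
  unfold back
  simp only [List.mem_filter, List.mem_range, decide_eq_true_eq]
  refine and_congr_right fun _ => ⟨fun h s hs => ?_, fun h => ⟨h 0 (by omega), h 1 (by omega),
    h 2 (by omega)⟩⟩
  obtain rfl | rfl | rfl : s = 0 ∨ s = 1 ∨ s = 2 := by omega
  exacts [h.1, h.2.1, h.2.2]

theorem back_pack {B : ℕ} {J : Sys} (hJ : Valid B J) (c : List ℕ) : Pack J (back J c) := by
  refine ⟨List.nodup_range.filter _, fun t ht => (mem_back.1 ht).1,
    fun t ht t' ht' s hs s' hs' e => ?_⟩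
  obtain ⟨h1, h2⟩ := mem_back.1 ht
  obtain ⟨h3, h4⟩ := mem_back.1 ht'
  obtain ⟨a1, a2, a3⟩ := h2 s hs
  obtain ⟨b1, -, -⟩ := h4 s' hs'
  have c1 := (hJ.1 t h1 s hs).1
  rw [flen] at a3
  by_contra hne
  have := card_le_card (show ({el J t s, J.1 + 6 * t + 2 * s, J.1 + 6 * t + 2 * s + 1,
      J.1 + 6 * t' + 2 * s'} : Finset ℕ) ⊆ {v ∈ range (J.1 + 6 * J.2.length) |
        c.getD v 0 = c.getD (J.1 + 6 * t + 2 * s) 0} from fun x hx => by
    simp only [mem_insert, mem_singleton] at hx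
    rw [mem_filter, mem_range]
    rcases hx with h | h | h | h <;> rw [h]
    · exact ⟨by omega, a1⟩
    · exact ⟨by omega, rfl⟩
    · exact ⟨by omega, a2⟩
    · exact ⟨by omega, by rw [← b1, ← e, a1]⟩)
  rw [card_insert_of_notMem (by simp; omega), card_insert_of_notMem (by simp; omega),
    card_insert_of_notMem (by simp; omega), card_singleton] at this
  omega

theorem tri_part {B : ℕ} {J : Sys} (hJ : Valid B J) {P : Finset ℕ} (h : Tri (red J) P) :
    ∃ t < J.2.length, (∃ s < 3, ∀ x, x ∈ P ↔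
        x = el J t s ∨ x = J.1 + 6 * t + 2 * s ∨ x = J.1 + 6 * t + 2 * s + 1) ∨
      (∃ r < 2, ∀ x, x ∈ P ↔
        x = J.1 + 6 * t + r ∨ x = J.1 + 6 * t + 2 + r ∨ x = J.1 + 6 * t + 4 + r) := by
  obtain ⟨u, v, w, h1, h2, h3, e⟩ := card_eq_three.1 h.1
  have := tri_cases hJ (h.2 u (by simp [e]) v (by simp [e]) h1)
    (h.2 u (by simp [e]) w (by simp [e]) h2) (h.2 v (by simp [e]) w (by simp [e]) h3)
  simpa only [e, mem_insert, mem_singleton] using this

open Classical in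
theorem cover {B : ℕ} {J : Sys} (hJ : Valid B J) (c : List ℕ) : J.1 ≤ 3 * (back J c).length +
    3 * #{v ∈ range (red J).1 | ¬ Tri (red J) (part (red J).1 c (c.getD v 0))} := by
  have hN : (red J).1 = J.1 + 6 * J.2.length := rfl
  have hsub : range J.1 ⊆ ((back J c).toFinset.biUnion fun t => (range 3).image (el J t)) ∪
      ({v ∈ range (red J).1 | ¬ Tri (red J) (part (red J).1 c (c.getD v 0))}.biUnion fun u =>
        (range 3).image fun s => if u < J.1 then u else el J ((u - J.1) / 6) s) := by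
    intro x hx
    rw [mem_range] at hx
    simp only [mem_union, mem_biUnion, mem_image, mem_filter, mem_range, List.mem_toFinset]
    by_cases h : Tri (red J) (part (red J).1 c (c.getD x 0))
    swap
    · exact Or.inr ⟨x, ⟨by omega, h⟩, 0, by omega, if_pos hx⟩
    have hxP : x ∈ part (red J).1 c (c.getD x 0) := mem_filter.2 ⟨mem_range.2 (by omega), rfl⟩
    obtain ⟨t, ht, ⟨s, hs, hP⟩ | ⟨s, hs, hP⟩⟩ := tri_part hJ h
    swap
    · have := (hP x).1 hxP; omega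
    have ex : x = el J t s := by have := (hP x).1 hxP; omega
    by_cases hb : t ∈ back J c
    · exact Or.inl ⟨t, hb, s, hs, ex.symm⟩
    right
    rw [mem_back] at hb
    push Not at hb
    obtain ⟨s', hs', hok⟩ := hb ht
    refine ⟨J.1 + 6 * t + 2 * s', ⟨by omega, fun h' => ?_⟩, s, hs, ?_⟩
    · have hy : J.1 + 6 * t + 2 * s' ∈ part (red J).1 c (c.getD (J.1 + 6 * t + 2 * s') 0) :=
        mem_filter.2 ⟨mem_range.2 (by omega), rfl⟩
      obtain ⟨t2, ht2, ⟨s2, hs2, hQ⟩ | ⟨s2, hs2, hQ⟩⟩ := tri_part hJ h'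
      · have c1 := (hJ.1 t2 ht2 s2 hs2).1
        have : t2 = t ∧ s2 = s' := by have := (hQ _).1 hy; omega
        rw [this.1, this.2] at hQ
        exact hok ⟨(mem_filter.1 ((hQ _).2 (Or.inl rfl))).2,
          (mem_filter.1 ((hQ _).2 (Or.inr (Or.inr rfl)))).2, by rw [flen]; exact h'.1⟩
      · have e : t2 = t ∧ s2 = 0 := by have := (hQ _).1 hy; omega
        have a1 := (mem_filter.1 ((hQ (J.1 + 6 * t + 2 * s)).2 (by omega))).2
        have a2 := (mem_filter.1 ((hP (J.1 + 6 * t + 2 * s)).2 (by omega))).2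
        have := (hQ x).1 (mem_filter.2 ⟨mem_range.2 (by omega), by rw [← a1, a2]⟩)
        omega
    · rw [if_neg (by omega), ex]
      congr 1
      omega
  have := card_le_card hsub
  rw [card_range] at this
  refine this.trans ((card_union_le _ _).trans (Nat.add_le_add ?_ ?_))
  · refine (card_biUnion_le_card_mul _ _ 3 fun _ _ => card_image_le.trans (by simp)).trans ?_
    have := List.toFinset_card_le (back J c)
    omega
  · exact (card_biUnion_le_card_mul _ _ 3 fun _ _ => card_image_le.trans (by simp)).trans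
      (le_of_eq (mul_comm _ _))

theorem forth {B : ℕ} {J : Sys} (hJ : Valid B J) (hP : Perfect J) :
    ∃ c, ∀ v < (red J).1, Tri (red J) (part (red J).1 c (c.getD v 0)) := by
  classical
  obtain ⟨M, hM, hc⟩ := hP
  have hN : (red J).1 = J.1 + 6 * J.2.length := rfl
  choose! τ hτ σ hσ he using hc
  let F : ℕ → ℕ := fun v => if v < J.1 then 6 * τ v + 2 * σ v else
    if (v - J.1) / 6 ∈ M then (v - J.1) / 2 * 2 else (v - J.1) / 6 * 6 + (v - J.1) % 2
  have hF : ∀ v < (red J).1, ((List.range (red J).1).map F).getD v 0 = F v := fun v hv => by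
    rw [List.getD_eq_getElem _ _ (by simpa using hv)]; simp
  have mem : ∀ i x, x ∈ part (red J).1 ((List.range (red J).1).map F) i ↔
      x < (red J).1 ∧ F x = i := fun i x => by
    unfold part
    rw [mem_filter, mem_range]
    exact and_congr_right fun h => by rw [hF x h]
  have rung : ∀ t ∈ M, ∀ s < 3, Tri (red J) (part (red J).1 ((List.range (red J).1).map F)
      (6 * t + 2 * s)) := fun t ht s hs => by
    have h1 := hM.2.1 t ht
    have h2 := hJ.1 t h1 s hs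
    have e : part (red J).1 ((List.range (red J).1).map F) (6 * t + 2 * s) =
        {el J t s, J.1 + 6 * t + 2 * s, J.1 + 6 * t + 2 * s + 1} := by
      ext x
      rw [mem]
      simp only [mem_insert, mem_singleton, F]
      by_cases hx : x < J.1
      · rw [if_pos hx]
        have a1 := hσ x hx
        have a2 := he x hx
        constructor
        · rintro ⟨-, h⟩
          have : τ x = t ∧ σ x = s := by omega
          rw [this.1, this.2] at a2
          exact Or.inl a2.symm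
        · intro h
          have a3 : x = el J t s := by omega
          have a4 := hM.2.2 _ (hτ x hx) t ht _ a1 s hs (a2.trans a3)
          have a5 := h2.2 _ a1 (by rw [← a3, ← a4, a2])
          omega
      · rw [if_neg hx]
        by_cases hx2 : (x - J.1) / 6 ∈ M
        · rw [if_pos hx2]; omega
        · rw [if_neg hx2]
          have : (x - J.1) / 6 ≠ t := fun h => hx2 (h ▸ ht)
          omega
    rw [e]
    exact tri_of ((adjEG (r := 0) h2.1 hs (by omega)).2 ⟨h1, rfl⟩)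
      ((adjEG h2.1 hs (by omega)).2 ⟨h1, rfl⟩)
      ((adjGG (r := 0) hs (by omega) hs (by omega)).2 ⟨h1, rfl, Or.inl ⟨rfl, by omega⟩⟩)
  refine ⟨(List.range (red J).1).map F, fun v hv => ?_⟩
  rw [hF v hv]
  by_cases hx : v < J.1
  · simp only [F, if_pos hx]
    exact rung _ (hτ v hx) _ (hσ v hx)
  by_cases hx2 : (v - J.1) / 6 ∈ M
  · simp only [F, if_neg hx, if_pos hx2]
    have := rung _ hx2 ((v - J.1) % 6 / 2) (by omega)
    rwa [show 6 * ((v - J.1) / 6) + 2 * ((v - J.1) % 6 / 2) = (v - J.1) / 2 * 2 by omega] at this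
  have e : part (red J).1 ((List.range (red J).1).map F) (F v) =
      {J.1 + 6 * ((v - J.1) / 6) + (v - J.1) % 2, J.1 + 6 * ((v - J.1) / 6) + 2 + (v - J.1) % 2,
        J.1 + 6 * ((v - J.1) / 6) + 4 + (v - J.1) % 2} := by
    ext x
    rw [mem]
    simp only [mem_insert, mem_singleton, F, if_neg hx, if_neg hx2]
    by_cases hy : x < J.1
    · rw [if_pos hy]
      have a1 := hσ x hy
      have : τ x ≠ (v - J.1) / 6 := fun h => hx2 (h ▸ hτ x hy)
      omega
    · rw [if_neg hy]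
      by_cases hy2 : (x - J.1) / 6 ∈ M
      · rw [if_pos hy2]
        have : (x - J.1) / 6 ≠ (v - J.1) / 6 := fun h => hx2 (h ▸ hy2)
        omega
      · rw [if_neg hy2]; omega
  rw [e]
  have k1 : (v - J.1) % 2 < 2 := by omega
  have k2 : (v - J.1) / 6 < J.2.length := by omega
  exact tri_of
    ((adjGG (s := 0) (s' := 1) (by omega) k1 (by omega) k1).2 ⟨k2, rfl, Or.inr ⟨by omega, rfl⟩⟩)
    ((adjGG (s := 0) (s' := 2) (by omega) k1 (by omega) k1).2 ⟨k2, rfl, Or.inr ⟨by omega, rfl⟩⟩)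
    ((adjGG (s := 1) (s' := 2) (by omega) k1 (by omega) k1).2 ⟨k2, rfl, Or.inr ⟨by omega, rfl⟩⟩)

theorem pt_red : PT red := by unfold red ad el; fun_prop

theorem pt_ok (s : ℕ) : PT fun p : (Sys × List ℕ) × ℕ => decide (ok p.1.1 p.1.2 p.2 s) := by
  unfold ok el; fun_prop

theorem pt_back : PT fun p : Sys × List ℕ => back p.1 p.2 := by
  have h0 := pt_ok 0
  have h1 := pt_ok 1
  have h2 := pt_ok 2
  exact PT.filter (PT.decide_and h0 (PT.decide_and h1 h2)) (by fun_prop)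

theorem result (h : PTAS) (B : ℕ) (ε : ℝ) (hε : 0 < ε) : NearPerfect B ε := by
  classical
  obtain ⟨f, hf, h⟩ := h (ε / (48 * (1 + 6 * B))) (by positivity)
  have h3 : PT fun J : Sys => (Dec.dec (⟨f (enc (red J))⟩ : Bits) : List ℕ) :=
    Dec.pt.comp ((Sim.pt_of_polyTime hf).comp pt_red.raw)
  obtain ⟨g, hg, h4⟩ := (pt_back.comp (PT.id'.mk h3)).polyTimeOn fun _ => True
  refine ⟨g, hg, fun J hJ hP => ?_⟩
  obtain ⟨c, e, h5⟩ := h (red J)
  refine ⟨back J c, by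
    rw [h4 J trivial]; simp only [e]; exact congrArg _ (congrArg _ (Dec.dec_raw c)),
    back_pack hJ c, ?_⟩
  obtain ⟨c0, h6⟩ := forth hJ hP
  have h7 := dens_ge _ c0 h6
  have h8 := dens_le _ (diamond hJ) c
  have h9 := dens_le _ (diamond hJ) c0
  have h10 := (Nat.cast_le (α := ℝ)).2 (cover hJ c)
  have h11 := h5 c0
  have h12 : ((red J).1 : ℝ) ≤ (1 + 6 * B) * J.1 := by
    have := hJ.2
    have : (red J).1 ≤ (1 + 6 * B) * J.1 := by
      show J.1 + 6 * J.2.length ≤ _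
      nlinarith
    exact_mod_cast this
  have h13 : ε / (48 * (1 + 6 * B)) * dens (red J) c0 ≤ ε * J.1 / 144 := by
    have a1 : dens (red J) c0 ≤ (1 + 6 * B) * J.1 / 3 := by
      have : (0 : ℝ) ≤ (#{v ∈ range (red J).1 |
        ¬ Tri (red J) (part (red J).1 c0 (c0.getD v 0))} : ℝ) := Nat.cast_nonneg _
      linarith
    refine (mul_le_mul_of_nonneg_left a1 (by positivity)).trans (le_of_eq ?_)
    field_simp
    ring
  push_cast at h10
  linarith

end Pool.Agent.Results.MP_0b8c1e_lc.NoPTAS
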